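import Pool.Agent.H17.VS.TargetsF

/-!
Board vs_modules: PTV, points of the cover in terms of `x = (1, y)`.
-/

set_option autoImplicit false

namespace Pool.Agent.H64.VS.PTV

open MvPolynomial SC Pool.Agent.H27.LV Pool.Agent.H17.VG Pool.Agent.H17.CI Pool.Agent.H17.VS

lemma aeval_deh {k K : Type} [Field k] [Field K] [Algebra k K] {n : ℕ} {σ : Type}
    (F : MvPolynomial (Fin (n + 1)) k) (z : Fin n ⊕ σ → K) :
    aeval z (rename Sum.inl (deh F)) =
      eval (Fin.cons 1 fun a => z (Sum.inl a) : Fin (n + 1) → K) (up K F) := by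
  have h1 : eval (Fin.cons 1 fun a => z (Sum.inl a) : Fin (n + 1) → K) (up K F) =
      aeval (Fin.cons 1 fun a => z (Sum.inl a) : Fin (n + 1) → K) F := by
    unfold up
    rw [eval_map, aeval_def]
  rw [h1]
  have h2 : ((aeval z).comp ((rename Sum.inl).comp
      (aeval (Fin.cons 1 X : Fin (n + 1) → MvPolynomial (Fin n) k)))) =
      (aeval (Fin.cons 1 fun a => z (Sum.inl a) : Fin (n + 1) → K) :
        MvPolynomial (Fin (n + 1)) k →ₐ[k] K) := by
    apply MvPolynomial.algHom_ext
    intro i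
    refine Fin.cases ?_ (fun j => ?_) i
    · simp
    · simp
  exact DFunLike.congr_fun h2 F

theorem pf_PTV : T_PTV := by
  intro k0 k K _ _ _ _ _ _ _ n ι e Y c μ z
  have hY : ∀ q : MvPolynomial (Fin n) k0,
      aeval z (rename Sum.inl (map (algebraMap k0 k) q) : MvPolynomial (Fin n ⊕ ι) k) =
        aeval (fun a => z (Sum.inl a)) q := by
    intro q
    rw [aeval_rename, aeval_map_algebraMap]
    rfl
  have hE : ∀ i, aeval z (rename Sum.inl (deh (frmT c i)) : MvPolynomial (Fin n ⊕ ι) k) =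
      eval (Fin.cons 1 fun a => z (Sum.inl a) : Fin (n + 1) → K) (upT K (frmT c) i) :=
    fun i => aeval_deh (frmT c i) z
  constructor
  · intro h
    refine ⟨fun q hq => ?_, fun i => ⟨fun hi => ?_, fun hi => ?_⟩⟩
    · rw [← hY]
      exact h _ (Or.inl ⟨q, hq, rfl⟩)
    · have h1 := h (rename Sum.inl (deh (frmT c i)) * X (Sum.inr i) - 1)
        (Or.inr ⟨i, by rw [if_pos hi]⟩)
      rw [map_sub, map_mul, map_one, aeval_X, hE, sub_eq_zero] at h1
      rw [mul_comm]
      exact h1
    · have h1 := h (X (Sum.inr i) ^ μ i - rename Sum.inl (deh (frmT c i)))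
        (Or.inr ⟨i, by rw [if_neg hi]⟩)
      rw [map_sub, map_pow, aeval_X, hE, sub_eq_zero] at h1
      exact h1
  · rintro ⟨h1, h2⟩ g (⟨q, hq, rfl⟩ | ⟨i, rfl⟩)
    · rw [hY]
      exact h1 q hq
    · by_cases hi : μ i = 0
      · rw [if_pos hi, map_sub, map_mul, map_one, aeval_X, hE, sub_eq_zero, mul_comm]
        exact (h2 i).1 hi
      · rw [if_neg hi, map_sub, map_pow, aeval_X, hE, sub_eq_zero]
        exact (h2 i).2 hi

end Pool.Agent.H64.VS.PTV
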