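import Pool.Agent.H17.VS.TargetsA
import Pool.Agent.H64.SC.Api

/-!
Board vs_modules: BVV, an integral frame at each place.
-/

set_option autoImplicit false

namespace Pool.Agent.H64.VS

open MvPolynomial SC Pool.Agent.H27.LV Pool.Agent.H17.VG Pool.Agent.H17.CI Pool.Agent.H17.VS

section

variable {F K : Type} [Field F] [Field K] [Algebra F K]

/-- determinants of matrices of algebraic elements are algebraic -/
theorem det_alg {B : Type} [Fintype B] [DecidableEq B] (M : Matrix B B K)
    (h : ∀ i j, IsAlgebraic F (M i j)) : IsAlgebraic F M.det := by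
  rw [← mem_algebraicClosure_iff, Matrix.det_apply]
  refine sum_mem fun σ _ => ?_
  rw [Units.smul_def]
  refine zsmul_mem ?_ _
  refine prod_mem fun i _ => ?_
  rw [mem_algebraicClosure_iff]
  exact h _ _

end

theorem pf_BVV : T_BVV := by
  classical
  intro R k K _ _ _ _ _ n x B g hfr v
  obtain ⟨halg, hrel, hsurj⟩ := hfr
  -- the minors
  set G : (B → Fin n) → Matrix B B K := fun J => Matrix.of fun b b' => g (J b) b' with hG
  have hincl : G (fun b => b.1) = 1 := by
    ext b b'
    obtain ⟨θ, hθ⟩ := hsurj (Pi.single b' 1)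
    have h1 := hrel θ b.1
    rw [hθ b] at h1
    simp only [hθ] at h1
    rw [Finset.sum_eq_single b'] at h1
    · rw [Pi.single_eq_same, mul_one] at h1
      change g b.1 b' = _
      rw [← h1, Matrix.one_apply, Pi.single_apply]
    · intro c _ hc
      rw [Pi.single_eq_of_ne hc, mul_zero]
    · intro h
      exact absurd (Finset.mem_univ _) h
  have hne : (Finset.univ.filter fun J : B → Fin n => (G J).det ≠ 0).Nonempty := by
    refine ⟨fun b => b.1, ?_⟩
    rw [Finset.mem_filter]
    refine ⟨Finset.mem_univ _, ?_⟩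
    rw [hincl, Matrix.det_one]
    exact one_ne_zero
  obtain ⟨J₀, hJ₀, hmin⟩ := Finset.exists_min_image _ (fun J => v.ord (G J).det) hne
  rw [Finset.mem_filter] at hJ₀
  have hdet : (G J₀).det ≠ 0 := hJ₀.2
  have hinj : Function.Injective J₀ := by
    intro b c hbc
    by_contra hne'
    apply hdet
    refine Matrix.det_zero_of_row_eq hne' ?_
    funext b'
    change g (J₀ b) b' = g (J₀ c) b'
    rw [hbc]
  set B' : Finset (Fin n) := Finset.univ.image J₀ with hB'
  have hmem : ∀ b : B, J₀ b ∈ B' := fun b => Finset.mem_image_of_mem _ (Finset.mem_univ b)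
  let e : B ≃ B' := Equiv.ofBijective (fun b => ⟨J₀ b, hmem b⟩) (by
    constructor
    · intro b c hbc
      exact hinj (congrArg Subtype.val hbc)
    · rintro ⟨a, ha⟩
      obtain ⟨b, -, hb⟩ := Finset.mem_image.1 ha
      exact ⟨b, Subtype.ext hb⟩)
  have he : ∀ b : B, (e b).1 = J₀ b := fun b => rfl
  have hunit : IsUnit (G J₀).det := isUnit_iff_ne_zero.2 hdet
  -- the new frame
  set g' : Fin n → B' → K := fun a b => ∑ c : B, g a c * (G J₀)⁻¹ c (e.symm b) with hg'
  -- Cramer
  have hcr : ∀ (a : Fin n) (b : B), g' a (e b) =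
      (G (Function.update J₀ b a)).det / (G J₀).det := by
    intro a b
    have h1 : g' a (e b) = ∑ c : B, g a c * (G J₀)⁻¹ c b := by
      simp only [hg', Equiv.symm_apply_apply]
    have h2 : G (Function.update J₀ b a) = (G J₀).updateRow b (g a) := by
      ext c c'
      by_cases hc : c = b
      · subst hc
        rw [Matrix.updateRow_self]
        change g (Function.update J₀ c a c) c' = _
        rw [Function.update_self]
      · rw [Matrix.updateRow_ne hc]
        change g (Function.update J₀ b a c) c' = _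
        rw [Function.update_of_ne hc]
        rfl
    have h3 : (G J₀)⁻¹ = (G J₀).det⁻¹ • (G J₀).adjugate := by
      rw [Matrix.inv_def, Ring.inverse_eq_inv']
    have h4 : ((G J₀).updateRow b (g a)).det = ∑ c : B, g a c * (G J₀).adjugate c b := by
      have h5 := Matrix.cramer_transpose_apply (G J₀) (g a) b
      rw [← h5, Matrix.cramer_eq_adjugate_mulVec, ← Matrix.adjugate_transpose]
      exact Finset.sum_congr rfl fun c _ => mul_comm _ _
    rw [h1, h2, h4, h3, Finset.sum_div]
    refine Finset.sum_congr rfl fun c _ => ?_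
    rw [Matrix.smul_apply, smul_eq_mul]
    field_simp
  refine ⟨B', g', ?_, ⟨?_, ?_, ?_⟩, ?_⟩
  · rw [hB', Finset.card_image_of_injective _ hinj, Finset.card_univ, Fintype.card_coe]
  · intro a b
    obtain ⟨b, rfl⟩ := e.surjective b
    rw [hcr, div_eq_mul_inv]
    exact (det_alg _ fun i j => halg _ _).mul (det_alg _ fun i j => halg _ _).inv
  · intro θ a
    have h1 : ∀ b : B, θ (x (J₀ b).succ) = ∑ c, G J₀ b c * θ (x c.1.succ) := fun b => hrel θ (J₀ b)
    have h2 : ∀ c : B, θ (x c.1.succ) = ∑ b : B, (G J₀)⁻¹ c b * θ (x (J₀ b).succ) := by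
      intro c
      have h3 : (fun b : B => θ (x (J₀ b).succ)) = (G J₀).mulVec fun c : B => θ (x c.1.succ) := by
        funext b
        rw [h1 b]
        rfl
      have h4 : (fun c : B => θ (x c.1.succ)) =
          (G J₀)⁻¹.mulVec (fun b : B => θ (x (J₀ b).succ)) := by
        rw [h3, Matrix.mulVec_mulVec, Matrix.nonsing_inv_mul _ hunit, Matrix.one_mulVec]
      exact congrFun h4 c
    rw [hrel θ a]
    calc ∑ c : B, g a c * θ (x c.1.succ) =
          ∑ c : B, ∑ b : B, g a c * ((G J₀)⁻¹ c b * θ (x (J₀ b).succ)) := by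
          refine Finset.sum_congr rfl fun c _ => ?_
          rw [h2 c, Finset.mul_sum]
      _ = ∑ b : B, ∑ c : B, g a c * ((G J₀)⁻¹ c b * θ (x (J₀ b).succ)) := Finset.sum_comm
      _ = ∑ b : B, g' a (e b) * θ (x (e b).1.succ) := by
          refine Finset.sum_congr rfl fun b _ => ?_
          simp only [hg', Equiv.symm_apply_apply, Finset.sum_mul]
          refine Finset.sum_congr rfl fun c _ => ?_
          rw [he b, mul_assoc]
      _ = ∑ b : B', g' a b * θ (x b.1.succ) :=
          Equiv.sum_comp e fun b : B' => g' a b * θ (x b.1.succ)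
  · intro w
    obtain ⟨θ, hθ⟩ := hsurj ((G J₀)⁻¹.mulVec fun b => w (e b))
    refine ⟨θ, fun b => ?_⟩
    obtain ⟨b, rfl⟩ := e.surjective b
    rw [he b, hrel θ (J₀ b)]
    have h1 : (∑ c : B, g (J₀ b) c * θ (x c.1.succ)) =
        (G J₀).mulVec ((G J₀)⁻¹.mulVec fun b => w (e b)) b := by
      rw [Matrix.mulVec]
      refine Finset.sum_congr rfl fun c _ => ?_
      rw [hθ c]
      rfl
    rw [h1, Matrix.mulVec_mulVec, Matrix.mul_nonsing_inv _ hunit, Matrix.one_mulVec]
  · intro a b
    obtain ⟨b, rfl⟩ := e.surjective b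
    rw [hcr]
    by_cases h0 : (G (Function.update J₀ b a)).det = 0
    · left
      rw [h0, zero_div]
    · right
      have h1 := hmin (Function.update J₀ b a) (by
        rw [Finset.mem_filter]
        exact ⟨Finset.mem_univ _, h0⟩)
      rw [v.ord_div h0 hdet]
      linarith

end Pool.Agent.H64.VS
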